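import Pool.Agent.helper19.MX.SpecD
import Pool.Agent.helper13.AU.QL0

set_option linter.unusedVariables false

namespace MX

open Pool.Agent.helper53.AU AN
open scoped Classical Topology IntermediateField
open Finset (range powerset Icc)

theorem RGX_aeval {k F : Type} [Field k] [Field F] [Algebra k F] (P : Place k F) (x : F) (hx : P.Ge 0 x)
    (q : Polynomial k) : P.Ge 0 (Polynomial.aeval x q) := by
  induction q using Polynomial.induction_on' with
  | add p q hp hq => rw [map_add]; exact hp.add hq
  | monomial n c =>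
    rw [Polynomial.aeval_monomial]
    have h1 := hx.pow n
    rw [mul_zero] at h1
    exact h1.const_mul c

theorem RGX (hQZ3 : QZ3_stmt) : RGX_stmt := by
  intro k F _ _ _ _ hFF x P₀ hx hP₀ a ha haR
  rw [IntermediateField.mem_adjoin_simple_iff] at ha
  obtain ⟨r, s, rfl⟩ := ha
  by_cases hs : s = 0
  · exact ⟨0, by simp [hs]⟩
  have hinj : ∀ q : Polynomial k, Polynomial.aeval x q = 0 → q = 0 := by
    intro q hq
    by_contra h
    exact hx ⟨q, h, hq⟩
  obtain ⟨r', hr'⟩ := EuclideanDomain.gcd_dvd_left r s
  obtain ⟨s', hs'⟩ := EuclideanDomain.gcd_dvd_right r s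
  set d := EuclideanDomain.gcd r s with hd
  have hd0 : d ≠ 0 := by
    intro h
    rw [h, zero_mul] at hs'
    exact hs hs'
  have hcop : IsCoprime r' s' := by
    have h1 := EuclideanDomain.gcd_eq_gcd_ab r s
    rw [← hd] at h1
    refine ⟨EuclideanDomain.gcdA r s, EuclideanDomain.gcdB r s, ?_⟩
    apply mul_left_cancel₀ hd0
    calc d * (EuclideanDomain.gcdA r s * r' + EuclideanDomain.gcdB r s * s')
        = (d * r') * EuclideanDomain.gcdA r s + (d * s') * EuclideanDomain.gcdB r s := by ring
      _ = r * EuclideanDomain.gcdA r s + s * EuclideanDomain.gcdB r s := by rw [← hr', ← hs']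
      _ = d := h1.symm
      _ = d * 1 := (mul_one d).symm
  have hdx : Polynomial.aeval x d ≠ 0 := fun h => hd0 (hinj d h)
  have hs'0 : s' ≠ 0 := by
    intro h
    rw [h, mul_zero] at hs'
    exact hs hs'
  have hs'x : Polynomial.aeval x s' ≠ 0 := fun h => hs'0 (hinj s' h)
  have hquot : Polynomial.aeval x r / Polynomial.aeval x s = Polynomial.aeval x r' / Polynomial.aeval x s' := by
    rw [hr', hs', map_mul, map_mul]
    exact mul_div_mul_left _ _ hdx
  rw [hquot] at haR ⊢
  by_cases hdeg : s'.degree = 0
  · rw [Polynomial.eq_C_of_degree_eq_zero hdeg] at hs'x ⊢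
    set c := s'.coeff 0 with hc
    rw [Polynomial.aeval_C] at hs'x ⊢
    have hc0 : c ≠ 0 := by
      intro h
      apply hs'x
      rw [h, map_zero]
    refine ⟨Polynomial.C c⁻¹ * r', ?_⟩
    rw [map_mul, Polynomial.aeval_C, div_eq_inv_mul, map_inv₀]
  · exfalso
    obtain ⟨c, hc⟩ := IsAlgClosed.exists_root s' hdeg
    have hzc : Transcendental k (x - algebraMap k F c) := by
      intro h
      apply hx
      have := h.add (isAlgebraic_algebraMap c)
      simpa using this
    have hfin := QL0 k F hFF _ hzc
    have h2 : 0 < degx k (x - algebraMap k F c) := Module.finrank_pos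
    have h1 := (hQZ3 k F hFF _ hzc).1
    have h3 : ∃ P : Place k F, 0 < P.ord (x - algebraMap k F c) := by
      by_contra hno
      push Not at hno
      rw [finsum_congr (fun Q => max_eq_right (hno Q)), finsum_zero] at h1
      omega
    obtain ⟨P, hP⟩ := h3
    have hne : P ≠ P₀ := by
      rintro rfl
      have hx0 : x ≠ 0 := by
        rintro rfl
        rw [P.ord_zero] at hP₀
        exact lt_irrefl _ hP₀
      have h4 : P.Ge (P.ord x + 1) (-algebraMap k F c) := ((P.ge_const c).neg).mono (by omega)
      have h5 := (Place.ord_add_eq hx0 h4).2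
      rw [← sub_eq_add_neg] at h5
      omega
    have hreg : P.Ge 0 (Polynomial.aeval x r' / Polynomial.aeval x s') := haR P hne
    have hxc : P.Ge 1 (x - algebraMap k F c) := Or.inr (by omega)
    have hx0 : P.Ge 0 x := by
      have := (hxc.mono (show (0 : ℤ) ≤ 1 by norm_num)).add (P.ge_const c)
      simpa using this
    obtain ⟨s'', hs''⟩ := Polynomial.dvd_iff_isRoot.2 hc
    have h6 : P.Ge 1 (Polynomial.aeval x s') := by
      rw [hs'', map_mul, map_sub, Polynomial.aeval_X, Polynomial.aeval_C]
      have := hxc.mul (RGX_aeval P x hx0 s'')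
      rw [add_zero] at this
      exact this
    have h7 : P.Ge 1 (Polynomial.aeval x r') := by
      have := hreg.mul h6
      rw [zero_add, div_mul_cancel₀ _ hs'x] at this
      exact this
    obtain ⟨u, v, huv⟩ := hcop
    have h8 : P.Ge 1 (1 : F) := by
      have e1 : (1 : F) = Polynomial.aeval x u * Polynomial.aeval x r' + Polynomial.aeval x v * Polynomial.aeval x s' := by
        rw [← map_mul, ← map_mul, ← map_add, huv, map_one]
      rw [e1]
      have a1 := (RGX_aeval P x hx0 u).mul h7
      have a2 := (RGX_aeval P x hx0 v).mul h6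
      rw [zero_add] at a1 a2
      exact a1.add a2
    have h9 := h8.le one_ne_zero
    rw [P.ord_one] at h9
    omega

end MX
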